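import Pool.Agent.ANO.Idx.Prod

/-!
# ANO2, module Idx2: index data for products with a twist (package IDX2-PRODT)

`T₀ p = (H_i (p_i), B p.2 + τ (p.1))` with `τ` continuous. As
`Pool.Agent.ANO.Idx.prod_box` (`Prod.lean`; copy and adapt), but with the twist: put
`N = {x | (∀ i, x.1 i ∈ closedBall (w.1 i) ρ_i) ∧ x.2 ∈ closedBall w.2 R}`, `R` large,
`W = {x | ∀ i, x.1 i ∈ W_i}`, `κ x = (fun i => κ_i (x.1 i), x.2 - (B x.2 + τ (w.1)))`.

The second component of the homotopy is `x.2 - B x.2 - ((1 - t) • τ' (x.1) + t • τ (w.1))` with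
`τ' (x.1) = τ (ofComplex x.1)`. `1 - B` is invertible (injective, finite dimension), and
`x.2 - w.2 = (1 - B)⁻¹ ((1 - t) • (τ' (x.1) - τ (w.1)))` if it vanishes
(`B w.2 + τ (w.1) = w.2`), so `‖x.2 - w.2‖ ≤ ‖(1 - B)⁻¹‖ * max ‖τ' - τ (w.1)‖ < R` for a suitable
`R`, the
maximum over the compact product of the discs.
-/

set_option autoImplicit false
set_option linter.unusedSectionVars false

open Set Filter Topology
open scoped UpperHalfPlane MatrixGroups

namespace Pool.Agent.ANO2.Idx2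

open Pool.Agent.ANO

variable {r k : ℕ}

private theorem fd_ProdT {H : Fin r → ℍ → ℍ} {w : ANO.X r k} {n : Fin r → ℕ}
    (b : ∀ i, Idx.Box (H i) (w.1 i) (n i)) (B : (Fin k → ℝ) →L[ℝ] (Fin k → ℝ)) (v : Fin k → ℝ)
    {x : ANO.E r k} (hx : ∀ i, x.1 i ∈ (b i).W) :
    HasFDerivAt (fun x : ANO.E r k => ((fun i => (b i).κ (x.1 i)), x.2 - (B x.2 + v)))
      ((ContinuousLinearMap.pi fun i => (fderiv ℝ (b i).κ (x.1 i)) ∘L
        ((ContinuousLinearMap.proj i : (Fin r → ℂ) →L[ℝ] ℂ) ∘L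
          (ContinuousLinearMap.fst ℝ (Fin r → ℂ) (Fin k → ℝ)))).prod
        (ContinuousLinearMap.snd ℝ (Fin r → ℂ) (Fin k → ℝ) -
          B ∘L (ContinuousLinearMap.snd ℝ (Fin r → ℂ) (Fin k → ℝ)))) x := by
  refine HasFDerivAt.prodMk ?_ ?_
  · refine hasFDerivAt_pi.2 fun i => ?_
    have h1 : HasFDerivAt (b i).κ (fderiv ℝ (b i).κ (x.1 i)) (x.1 i) :=
      (((b i).smooth.contDiffAt ((b i).W_open.mem_nhds (hx i))).differentiableAt
        one_ne_zero).hasFDerivAt
    have h2 : HasFDerivAt (fun x : ANO.E r k => x.1 i)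
        ((ContinuousLinearMap.proj i : (Fin r → ℂ) →L[ℝ] ℂ) ∘L
          (ContinuousLinearMap.fst ℝ (Fin r → ℂ) (Fin k → ℝ))) x :=
      ((ContinuousLinearMap.proj i : (Fin r → ℂ) →L[ℝ] ℂ) ∘L
          (ContinuousLinearMap.fst ℝ (Fin r → ℂ) (Fin k → ℝ))).hasFDerivAt
    exact HasFDerivAt.comp (g := (b i).κ) x h1 h2
  · have h3 : HasFDerivAt (fun x : ANO.E r k => x.2)
        (ContinuousLinearMap.snd ℝ (Fin r → ℂ) (Fin k → ℝ)) x := hasFDerivAt_snd
    exact h3.sub ((B.hasFDerivAt.comp x h3).add_const v)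

/-- `1 - B` is bounded from below -/
private theorem antilip_ProdT {B : (Fin k → ℝ) →L[ℝ] (Fin k → ℝ)} (hB : ∀ u, B u = u → u = 0) :
    ∃ K : ℝ, 0 ≤ K ∧ ∀ u, ‖u‖ ≤ K * ‖u - B u‖ := by
  have hker : LinearMap.ker ((LinearMap.id : (Fin k → ℝ) →ₗ[ℝ] (Fin k → ℝ)) -
      (B : (Fin k → ℝ) →ₗ[ℝ] (Fin k → ℝ))) = ⊥ := by
    refine LinearMap.ker_eq_bot'.2 fun u hu => ?_
    have h1 : u - B u = 0 := hu
    exact hB u (sub_eq_zero.1 h1).symm
  obtain ⟨K, -, hK⟩ := LinearMap.exists_antilipschitzWith _ hker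
  refine ⟨K, K.coe_nonneg, fun u => ?_⟩
  have h1 := hK.le_mul_dist u 0
  rw [map_zero, dist_zero_right, dist_zero_right] at h1
  exact h1

/-- a bound for the twist on the product of the discs -/
private theorem bound_ProdT {H : Fin r → ℍ → ℍ} {w : ANO.X r k} {n : Fin r → ℕ}
    (b : ∀ i, Idx.Box (H i) (w.1 i) (n i)) {τ : (Fin r → ℍ) → (Fin k → ℝ)}
    (hτ : Continuous τ) :
    ∃ M : ℝ, 0 ≤ M ∧ ∀ z : Fin r → ℂ, (∀ i, z i ∈ Metric.closedBall (w.1 i : ℂ) (b i).ρ) →
      ‖τ (fun i => UpperHalfPlane.ofComplex (z i)) - τ w.1‖ ≤ M := by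
  have hcomp : IsCompact (Set.univ.pi fun i => Metric.closedBall (w.1 i : ℂ) (b i).ρ) :=
    isCompact_univ_pi fun i => isCompact_closedBall _ _
  have hcont : ContinuousOn (fun z : Fin r → ℂ =>
      τ (fun i => UpperHalfPlane.ofComplex (z i)) - τ w.1)
      (Set.univ.pi fun i => Metric.closedBall (w.1 i : ℂ) (b i).ρ) := by
    have h1 : ContinuousOn (fun z : Fin r → ℂ => ofE ((z, w.2) : ANO.E r k))
        (Set.univ.pi fun i => Metric.closedBall (w.1 i : ℂ) (b i).ρ) := by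
      refine (Idx.continuousOn_ofE (r := r) (k := k)).comp
        (Continuous.continuousOn (continuous_id.prodMk continuous_const)) ?_
      exact fun z hz i => (b i).sub (hz i (mem_univ i))
    have h2 : ContinuousOn (fun z : Fin r → ℂ => τ (ofE ((z, w.2) : ANO.E r k)).1)
        (Set.univ.pi fun i => Metric.closedBall (w.1 i : ℂ) (b i).ρ) :=
      hτ.comp_continuousOn (continuous_fst.comp_continuousOn h1)
    exact h2.sub continuousOn_const
  obtain ⟨M, hM⟩ := hcomp.exists_bound_of_continuousOn hcont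
  exact ⟨max M 0, le_max_right _ _, fun z hz =>
    (hM z fun i _ => hz i).trans (le_max_left _ _)⟩

theorem prod_box {H : Fin r → ℍ → ℍ} {w : ANO.X r k} {n : Fin r → ℕ}
    (b : ∀ i, Idx.Box (H i) (w.1 i) (n i)) {B : (Fin k → ℝ) →L[ℝ] (Fin k → ℝ)}
    {τ : (Fin r → ℍ) → (Fin k → ℝ)} (hτ : Continuous τ) (hB : ∀ u, B u = u → u = 0)
    (hBw : B w.2 + τ w.1 = w.2) :
    ∃ (N W : Set (ANO.E r k)) (κ : ANO.E r k → ANO.E r k), IsCompact N ∧ N ⊆ dom r k ∧ IsOpen W ∧
      N ⊆ W ∧ ContDiffOn ℝ 1 κ W ∧ Idx.Reg κ N ∧ toE w ∈ interior N ∧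
      (∀ x ∈ frontier N, ∀ t ∈ Icc (0 : ℝ) 1,
        (x - loc (fun p : ANO.X r k => (fun i => H i (p.1 i), B p.2 + τ p.1)) x) +
          t • (κ x - (x - loc (fun p : ANO.X r k =>
            (fun i => H i (p.1 i), B p.2 + τ p.1)) x)) ≠ 0) ∧
      (N ∩ κ ⁻¹' {0}).encard ≤ (∏ i, n i : ℕ) ∧
      ((∀ i, (b i).κ (w.1 i) = 0) → κ (toE w) = 0) ∧
      ∀ x ∈ N, ∀ i, x.1 i ∈ Metric.closedBall (w.1 i : ℂ) (b i).ρ := by
  classical
  obtain ⟨K, hK0, hK⟩ := antilip_ProdT hB
  obtain ⟨M, hM0, hM⟩ := bound_ProdT b hτ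
  set v : Fin k → ℝ := τ w.1 with hv
  set R : ℝ := K * M + 1 with hR
  have hR0 : 0 < R := by
    have := mul_nonneg hK0 hM0
    rw [hR]
    linarith
  have hfix : ∀ y : Fin k → ℝ, y - (B y + v) = 0 → y = w.2 := by
    intro y hy
    have h1 : B (y - w.2) = y - w.2 := by
      rw [map_sub]
      have h2 : B y = y - v := by
        have := sub_eq_zero.1 hy
        rw [eq_sub_iff_add_eq]
        exact this.symm
      have h3 : B w.2 = w.2 - v := by
        rw [eq_sub_iff_add_eq]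
        exact hBw
      rw [h2, h3]
      abel
    exact sub_eq_zero.1 (hB _ h1)
  set N : Set (ANO.E r k) := (Set.univ.pi fun i => Metric.closedBall (w.1 i : ℂ) (b i).ρ) ×ˢ
    Metric.closedBall w.2 R with hN
  set κ : ANO.E r k → ANO.E r k := fun x => ((fun i => (b i).κ (x.1 i)), x.2 - (B x.2 + v))
    with hκ
  have hNW : ∀ x ∈ N, ∀ i, x.1 i ∈ (b i).W := fun x hx i => (b i).W_sub (hx.1 i (mem_univ i))
  have hint : ∀ x : ANO.E r k, (∀ i, x.1 i ∈ Metric.ball (w.1 i : ℂ) (b i).ρ) →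
      x.2 ∈ Metric.ball w.2 R → x ∈ interior N := by
    intro x hx1 hx2
    rw [hN, interior_prod_eq, interior_pi_set finite_univ]
    exact ⟨fun i _ => Metric.ball_subset_interior_closedBall (hx1 i),
      Metric.ball_subset_interior_closedBall hx2⟩
  have hcomp : IsCompact N :=
    (isCompact_univ_pi fun i => isCompact_closedBall _ _).prod (isCompact_closedBall _ _)
  refine ⟨N, (Set.univ.pi fun i => (b i).W) ×ˢ Set.univ, κ, hcomp,
    fun x hx i => (b i).sub (hx.1 i (mem_univ i)),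
    (isOpen_set_pi finite_univ fun i _ => (b i).W_open).prod isOpen_univ,
    fun x hx => ⟨fun i _ => hNW x hx i, mem_univ _⟩, ?_, ?_, ?_, ?_, ?_, ?_,
    fun x hx i => hx.1 i (mem_univ i)⟩
  · refine ContDiffOn.prodMk (contDiffOn_pi.2 fun i => ?_) ?_
    · refine (b i).smooth.comp (g := (b i).κ) (f := fun x : ANO.E r k => x.1 i) ?_ ?_
      · exact ((contDiff_apply ℝ ℂ i).comp contDiff_fst).contDiffOn
      · exact fun x hx => hx.1 i (mem_univ i)
    · exact (contDiff_snd.sub ((B.contDiff.comp contDiff_snd).add contDiff_const)).contDiffOn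
  · intro x hx hx0
    rw [(fd_ProdT b B v (hNW x hx)).fderiv]
    refine SmoothDegree.det_ne_zero_of_inj _ fun u hu => ?_
    have h1 := congrArg Prod.fst hu
    have h2 := congrArg Prod.snd hu
    have h3 := congrArg Prod.fst hx0
    have h4 : u.2 - B u.2 = 0 := h2
    refine Prod.ext (funext fun i => ?_) ?_
    · exact (b i).reg (x.1 i) (hx.1 i (mem_univ i)) (congrFun h3 i) (u.1 i) (congrFun h1 i)
    · exact hB _ (sub_eq_zero.1 h4).symm
  · exact hint _ (fun i => Metric.mem_ball_self (b i).ρ_pos) (Metric.mem_ball_self hR0)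
  · intro x hx t ht h0
    have hxN : x ∈ N := hcomp.isClosed.frontier_subset hx
    refine hx.2 (hint x (fun i => ?_) ?_)
    · have h1 := congrFun (congrArg Prod.fst h0) i
      have h2 : (x.1 i - (H i (UpperHalfPlane.ofComplex (x.1 i)) : ℂ)) +
          t • ((b i).κ (x.1 i) - (x.1 i - (H i (UpperHalfPlane.ofComplex (x.1 i)) : ℂ))) = 0 := h1
      have h3 := hxN.1 i (mem_univ i)
      rw [Metric.mem_ball]
      refine lt_of_le_of_ne (Metric.mem_closedBall.1 h3) fun h4 => ?_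
      exact (b i).bdry (x.1 i) (Metric.mem_sphere.2 h4) t ht h2
    · have h1 : (x.2 - (B x.2 + τ (fun i => UpperHalfPlane.ofComplex (x.1 i)))) +
          t • ((x.2 - (B x.2 + v)) -
            (x.2 - (B x.2 + τ (fun i => UpperHalfPlane.ofComplex (x.1 i))))) = 0 :=
        congrArg Prod.snd h0
      have h2 : ‖τ (fun i => UpperHalfPlane.ofComplex (x.1 i)) - v‖ ≤ M :=
        hM x.1 fun i => hxN.1 i (mem_univ i)
      set q : Fin k → ℝ := τ (fun i => UpperHalfPlane.ofComplex (x.1 i)) with hq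
      have h3 : (x.2 - w.2) - B (x.2 - w.2) = (1 - t) • (q - v) := by
        have h4 : w.2 - B w.2 - v = 0 := by
          rw [sub_sub, hBw, sub_self]
        have h5 : (x.2 - w.2) - B (x.2 - w.2) - (1 - t) • (q - v) =
            ((x.2 - (B x.2 + q)) + t • ((x.2 - (B x.2 + v)) - (x.2 - (B x.2 + q)))) -
              (w.2 - B w.2 - v) := by
          rw [map_sub]
          module
        rw [h1, h4, sub_zero] at h5
        exact sub_eq_zero.1 h5
      have h6 : ‖x.2 - w.2‖ ≤ K * M := by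
        refine (hK _).trans (mul_le_mul_of_nonneg_left ?_ hK0)
        rw [h3, norm_smul, Real.norm_eq_abs, abs_of_nonneg (by linarith [ht.2])]
        calc (1 - t) * ‖q - v‖ ≤ 1 * ‖q - v‖ :=
              mul_le_mul_of_nonneg_right (by linarith [ht.1]) (norm_nonneg _)
          _ ≤ M := by rw [one_mul]; exact h2
      rw [Metric.mem_ball, dist_eq_norm]
      rw [hR]
      linarith
  · have hfin : ∀ i, {z : ℂ | z ∈ Metric.closedBall (w.1 i : ℂ) (b i).ρ ∧ (b i).κ z = 0}.Finite :=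
      fun i => Set.finite_of_encard_le_coe (b i).zeros
    have hsub : N ∩ κ ⁻¹' {0} ⊆ (fun y : Fin r → ℂ => ((y, w.2) : ANO.E r k)) ''
        ((Fintype.piFinset fun i => (hfin i).toFinset : Finset (Fin r → ℂ)) :
          Set (Fin r → ℂ)) := by
      intro x hx
      have hx0 : κ x = 0 := hx.2
      refine ⟨x.1, ?_, ?_⟩
      · rw [Finset.mem_coe, Fintype.mem_piFinset]
        intro i
        rw [Set.Finite.mem_toFinset]
        exact ⟨hx.1.1 i (mem_univ i), congrFun (congrArg Prod.fst hx0) i⟩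
      · exact Prod.ext rfl (hfix _ (congrArg Prod.snd hx0)).symm
    refine (Set.encard_le_encard hsub).trans ((Set.encard_image_le _ _).trans ?_)
    rw [Set.encard_coe_eq_coe_finsetCard, Fintype.card_piFinset]
    refine Nat.cast_le.2 (Finset.prod_le_prod' fun i _ => ?_)
    have h1 := (b i).zeros
    rw [← (hfin i).coe_toFinset, Set.encard_coe_eq_coe_finsetCard] at h1
    exact Nat.cast_le.1 h1
  · intro h0
    exact Prod.ext (funext fun i => h0 i) (sub_eq_zero.2 hBw.symm)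

end Pool.Agent.ANO2.Idx2
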