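import Pool.Agent.ANO.Idx.Deg
import Pool.Agent.ANO2.Idx2.ProdT

/-!
# ANO2, module Idx2: the number of fixed points, abstract form

`T` is a `C¹` map of `X r k = ℍ^r × ℝ^k` all of whose fixed points are nondegenerate with the same
sign; `T₀` is continuous, at bounded distance of `T`, and `{p | dist p (T₀ p) ≤ C}` is bounded.
-/

set_option autoImplicit false
set_option linter.unusedSectionVars false

open Set Filter Topology
open Pool.Agent.SmoothDegree
open scoped UpperHalfPlane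

namespace Pool.Agent.ANO2.Idx2

open Pool.Agent.ANO

variable {r k : ℕ}

/-- `T` and `T₀` are as in the header. -/
structure Comp (T T₀ : ANO.X r k → ANO.X r k) : Prop where
  smooth : ContDiffOn ℝ 1 (loc T) (dom r k)
  cont : Continuous T₀
  sign : ∃ σ : ℤ, σ.natAbs = 1 ∧ ∀ q, T q = q →
    (fderiv ℝ (fun x => x - loc T x) (toE q)).det ≠ 0 ∧
      jacobianSign (fun x => x - loc T x) (toE q) = σ
  near : ∃ C : ℝ, ∀ p, dist (T p) (T₀ p) ≤ C
  bdd : ∀ C : ℝ, ∃ (p₀ : ANO.X r k) (R : ℝ), ∀ p, dist p (T₀ p) ≤ C → dist p p₀ ≤ R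

theorem Comp.encard [Nontrivial (ANO.E r k)] {T T₀ : ANO.X r k → ANO.X r k} (h : Comp T T₀)
    {N W : Set (ANO.E r k)} {κ : ANO.E r k → ANO.E r k} (hN : IsCompact N)
    (hNd : N ⊆ dom r k) (hW : IsOpen W) (hNW : N ⊆ W) (hκ : ContDiffOn ℝ 1 κ W)
    (hκr : Idx.Reg κ N) (hfix : ∀ w, T₀ w = w → toE w ∈ interior N)
    (h3 : ∀ x ∈ frontier N, ∀ t ∈ Icc (0 : ℝ) 1,
      (x - loc T₀ x) + t • (κ x - (x - loc T₀ x)) ≠ 0) :
    {q | T q = q}.encard = (Idx.cnt κ N).natAbs := by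
  obtain ⟨σ, hσ, hs⟩ := h.sign
  obtain ⟨C, hC⟩ := h.near
  obtain ⟨p₀, R, hR⟩ := h.bdd C
  exact Idx.deg_main h.smooth h.cont hC hR hσ hs hN hNd hW hNW hκ hκr hfix h3

/-- if `T₀` has no fixed point then `T` has none -/
theorem Comp.no_fix [Nontrivial (ANO.E r k)] {T T₀ : ANO.X r k → ANO.X r k} (h : Comp T T₀)
    (h0 : ∀ p, T₀ p ≠ p) (q : ANO.X r k) : T q ≠ q := by
  intro hq
  have h1 := h.encard (N := ∅) (W := ∅) (κ := fun x => x) isCompact_empty
    (empty_subset _) isOpen_empty (empty_subset _) contDiffOn_empty (fun x hx => hx.elim)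
    (fun w hw => absurd hw (h0 w)) (fun x hx => by simp at hx)
  have h2 : Idx.cnt (fun x : ANO.E r k => x) ∅ = 0 := by
    unfold Idx.cnt
    rw [empty_inter, finsum_mem_empty]
  rw [h2, Int.natAbs_zero, Nat.cast_zero, encard_eq_zero] at h1
  exact (h1 ▸ (show q ∈ {q | T q = q} from hq) : q ∈ (∅ : Set (ANO.X r k)))

/-- products: the number of fixed points of `T` is at most the product of the numbers `n i` -/
theorem Comp.encard_le [Nontrivial (ANO.E r k)] {T T₀ : ANO.X r k → ANO.X r k} (h : Comp T T₀)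
    {H : Fin r → ℍ → ℍ} {w : ANO.X r k} {n : Fin r → ℕ}
    (b : ∀ i, Idx.Box (H i) (w.1 i) (n i)) {B : (Fin k → ℝ) →L[ℝ] (Fin k → ℝ)}
    {τ : (Fin r → ℍ) → (Fin k → ℝ)} (hτ : Continuous τ) (hB : ∀ u, B u = u → u = 0)
    (hform : ∀ p, T₀ p = (fun i => H i (p.1 i), B p.2 + τ p.1)) (hw : T₀ w = w)
    (huniq : ∀ w', T₀ w' = w' → w' = w) : {q | T q = q}.encard ≤ (∏ i, n i : ℕ) := by
  have hBw : B w.2 + τ w.1 = w.2 := by
    rw [hform] at hw
    exact congrArg Prod.snd hw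
  obtain ⟨N, W, κ, hN, hNd, hW, hNW, hκ, hκr, hwN, h3, hz, -, -⟩ := prod_box b hτ hB hBw
  have hT₀ : T₀ = fun p : ANO.X r k => (fun i => H i (p.1 i), B p.2 + τ p.1) := by
    funext p
    exact hform p
  have h1 := h.encard hN hNd hW hNW hκ hκr (fun w' hw' => by rw [huniq w' hw']; exact hwN)
    (by rw [hT₀]; exact h3)
  rw [h1]
  exact_mod_cast Idx.natAbs_cnt_le hz

/-- products of regular fixed points: `T` has exactly one fixed point -/
theorem Comp.existsUnique [Nontrivial (ANO.E r k)] {T T₀ : ANO.X r k → ANO.X r k}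
    (h : Comp T T₀) {H : Fin r → ℍ → ℍ} {w : ANO.X r k}
    (hb : ∀ i, ∃ b : Idx.Box (H i) (w.1 i) 1, b.κ (w.1 i) = 0)
    {B : (Fin k → ℝ) →L[ℝ] (Fin k → ℝ)} {τ : (Fin r → ℍ) → (Fin k → ℝ)} (hτ : Continuous τ)
    (hB : ∀ u, B u = u → u = 0) (hform : ∀ p, T₀ p = (fun i => H i (p.1 i), B p.2 + τ p.1))
    (hw : T₀ w = w) (huniq : ∀ w', T₀ w' = w' → w' = w) : ∃! q, T q = q := by
  choose b hbz using hb
  have hBw : B w.2 + τ w.1 = w.2 := by
    rw [hform] at hw
    exact congrArg Prod.snd hw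
  obtain ⟨N, W, κ, hN, hNd, hW, hNW, hκ, hκr, hwN, h3, hz, hκw, -⟩ := prod_box b hτ hB hBw
  have hT₀ : T₀ = fun p : ANO.X r k => (fun i => H i (p.1 i), B p.2 + τ p.1) := by
    funext p
    exact hform p
  have hκ0 : κ (toE w) = 0 := hκw hbz
  have hwN' : toE w ∈ N := interior_subset hwN
  have hcard := h.encard hN hNd hW hNW hκ hκr (fun w' hw' => by rw [huniq w' hw']; exact hwN)
    (by rw [hT₀]; exact h3)
  have h1 : N ∩ κ ⁻¹' {0} = {toE w} := by
    have h2 : (N ∩ κ ⁻¹' {0}).encard ≤ 1 := by simpa using hz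
    rw [encard_le_one_iff] at h2
    ext x
    constructor
    · intro hx
      exact h2 x (toE w) hx ⟨hwN', hκ0⟩
    · rintro rfl
      exact ⟨hwN', hκ0⟩
  have h2 : (Idx.cnt κ N).natAbs = 1 := by
    unfold Idx.cnt
    rw [h1, finsum_mem_singleton]
    unfold jacobianSign
    have h3 := hκr _ hwN' hκ0
    rcases lt_or_gt_of_ne h3 with h | h
    · rw [sign_neg h]
      decide
    · rw [sign_pos h]
      decide
  rw [h2, Nat.cast_one, encard_eq_one] at hcard
  obtain ⟨q, hq⟩ := hcard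
  refine ⟨q, ?_, fun q' hq' => ?_⟩
  · have h4 : q ∈ {q | T q = q} := by
      rw [hq]
      exact mem_singleton q
    exact h4
  · have h4 : q' ∈ {q | T q = q} := hq'
    rw [hq] at h4
    exact h4

end Pool.Agent.ANO2.Idx2
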