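import Pool.Agent.ANO2.Idx.Sgn
import Pool.Agent.ANO2.Idx.Near
import Pool.Agent.ANO2.Iface
import Pool.Agent.ANO2.Idx2.Fix
import Pool.Agent.ANO2.Idx2.ConeBox
import Pool.Agent.ANO2.Idx2.RegN

/-!
# ANO2, module Idx2: the three statements
-/

set_option autoImplicit false
set_option linter.unusedSectionVars false

open Set Filter Topology
open Pool.Agent.SmoothDegree
open scoped UpperHalfPlane MatrixGroups

namespace Pool.Agent.ANO2.Idx2

open Pool.Agent.ANO

variable {r k : ℕ}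

theorem comp_of (S : Fin r → ClosedSurface) {F : ANO.X r k ≃ₜ ANO.X r k}
    (hF : IsAnosovLift S F) {M : ℕ} (hM : 0 < M) {G₀ : ANO.X r k → ANO.X r k}
    (hG₀ : Continuous G₀) (hH : Homotopic S G₀ (F ^ M : ANO.X r k ≃ₜ ANO.X r k))
    {g : ANO.X r k → ANO.X r k} (hg : IsDeck S k g) (ht : Tame (g ∘ G₀)) :
    Comp (g ∘ (F ^ M : ANO.X r k ≃ₜ ANO.X r k)) (g ∘ G₀) := by
  obtain ⟨C, hC⟩ := ANO2.Idx.near hH hG₀ (F ^ M).continuous
  refine ⟨ANO2.Idx.contDiffOn_T hF M hg, (ANO2.Idx.deck_continuous hg).comp hG₀, ?_, ⟨C, ?_⟩, ?_⟩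
  · obtain ⟨σ, hσ, hs⟩ := ANO2.Idx.exists_sign hF hM hg
    exact ⟨σ, hσ, hs⟩
  · intro p
    show dist (g ((F ^ M) p)) (g (G₀ p)) ≤ C
    rw [ANO2.Idx.deck_dist hg]
    exact hC p
  · intro C
    obtain ⟨R, hR⟩ := ht.bdd C
    by_cases hne : ∃ p₀ : ANO.X r k, dist p₀ ((g ∘ G₀) p₀) ≤ C
    · obtain ⟨p₀, hp₀⟩ := hne
      exact ⟨p₀, R, fun p hp => hR p p₀ hp hp₀⟩
    · exact ⟨(fun _ => UpperHalfPlane.I, 0), 0, fun p hp => absurd ⟨p, hp⟩ hne⟩

theorem nontrivial_E (h : ¬ (r = 0 ∧ k = 0)) : Nontrivial (ANO.E r k) := by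
  by_cases hr : r = 0
  · have hk : 0 < k := Nat.pos_of_ne_zero fun hk => h ⟨hr, hk⟩
    have : Nonempty (Fin k) := ⟨⟨0, hk⟩⟩
    infer_instance
  · have : Nonempty (Fin r) := ⟨⟨0, Nat.pos_of_ne_zero hr⟩⟩
    infer_instance

theorem subsingleton_X (h : r = 0 ∧ k = 0) : Subsingleton (ANO.X r k) := by
  obtain ⟨rfl, rfl⟩ := h
  infer_instance

theorem index : IndexStatement := by
  intro r k S F hF M hM G₀ hG₀ hH g hg ht q hq
  by_cases h0 : r = 0 ∧ k = 0
  · have := subsingleton_X h0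
    exact ⟨q, Subsingleton.elim _ _⟩
  have := nontrivial_E h0
  by_contra hcon
  push Not at hcon
  exact (comp_of S hF hM hG₀ hH hg ht).no_fix hcon q hq

theorem box_of_reg {H : ℍ → ℍ} {w : ℍ} (h : RegFixed w H) :
    ∃ b : ANO.Idx.Box H w 1, b.κ w = 0 := by
  obtain ⟨hw, hc, D, L, ε, hL, hε, hD, hD', hev⟩ := h
  refine reg_box (c := D w - ε * stretch L (D w)) hD hD' hc hw hL hε ?_
  filter_upwards [hev] with z hz
  have h1 : stretch L (D z - D w) = stretch L (D z) - stretch L (D w) := by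
    apply Complex.ext <;> simp [stretch] <;> ring
  rw [h1] at hz
  linear_combination hz

theorem regular : RegularStatement := by
  intro r k S F hF M hM G₀ hG₀ hH g hg ht Φ w hw hreg
  by_cases h0 : r = 0 ∧ k = 0
  · have := subsingleton_X h0
    exact ⟨w, Subsingleton.elim _ _⟩
  have := nontrivial_E h0
  obtain ⟨q, hq, -⟩ := (comp_of S hF hM hG₀ hH hg ht).existsUnique (H := Φ.H) (w := w)
    (fun i => box_of_reg (hreg i)) (B := Φ.B) (τ := Φ.β) Φ.cont Φ.hyp (fun p => Φ.form p) hw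
    (fun w' hw' => ht.unique w' w hw' hw)
  exact ⟨q, hq⟩

theorem count : CountStatement := by
  intro r k S F hF M hM G₀ hG₀ hH g hg ht Φ w hw n i0 hn hreg hcone
  have : Nontrivial (ANO.E r k) := nontrivial_E fun h => by
    have := i0.2
    omega
  have hb : ∀ i, Nonempty (ANO.Idx.Box (Φ.H i) (w.1 i) (if i = i0 then n - 1 else 1)) := by
    intro i
    by_cases hi : i = i0
    · subst hi
      rw [if_pos rfl]
      exact cone_box (by omega) hcone
    · rw [if_neg hi]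
      obtain ⟨b, -⟩ := box_of_reg (hreg i hi)
      exact ⟨b⟩
  have h1 := (comp_of S hF hM hG₀ hH hg ht).encard_le (H := Φ.H) (w := w)
    (fun i => (hb i).some) (B := Φ.B) (τ := Φ.β) Φ.cont Φ.hyp (fun p => Φ.form p) hw
    (fun w' hw' => ht.unique w' w hw' hw)
  have h2 : ∏ i : Fin r, (if i = i0 then n - 1 else 1) = n - 1 := by
    rw [Finset.prod_ite_eq']
    simp
  rw [h2] at h1
  exact h1

end Pool.Agent.ANO2.Idx2
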