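import Pool.Agent.ANO.Idx.Box

/-!
# ANO2, module Idx2: fixed cone points with `n` prongs (definition)
-/

set_option autoImplicit false

open Set Filter Topology
open scoped UpperHalfPlane

namespace Pool.Agent.ANO2.Idx2

open Pool.Agent.ANO

/-- `H : ℍ → ℍ` fixes the cone point `s` with `n` prongs and all quadrants at `s`.  In a chart `ψ`
at
`s` in which the quadratic differential is `(n/2)² ψ^(n-2) dψ²` (so that `D = ψ^(n/2)` is a local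
primitive of its square root) `H` has the form `ψ ↦ ω ψ` with `|arg ω| < π/n` and
`(ω ψ)^(n/2) = ± (L Re D + i L⁻¹ Im D)`. -/
def ConeFixed (s : ℍ) (n : ℕ) (H : ℍ → ℍ) : Prop :=
  H s = s ∧ Continuous H ∧ ∃ (ψ : ℂ → ℂ) (L : ℝ), 1 < L ∧ AnalyticAt ℂ ψ (s : ℂ) ∧
    ψ (s : ℂ) = 0 ∧ deriv ψ (s : ℂ) ≠ 0 ∧
    ∀ᶠ z in 𝓝 s, ∃ ω : ℂ, |ω.arg| < Real.pi / n ∧ ψ (H z : ℂ) = ω * ψ (z : ℂ) ∧
      ∀ v : ℂ, v ^ 2 = ψ (z : ℂ) ^ n → (ω * ψ (z : ℂ)) ^ n = stretch L v ^ 2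

end Pool.Agent.ANO2.Idx2
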