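import Pool.Agent.ANO2.Idx2.ConeDef

/-!
# ANO2, module Idx2: the index at a cone point with `n` prongs, main inequality (package
  IDX2-CONEN)

Generalises `Pool.Agent.ANO.Idx.ConeA` (`n = 2 κ`) to arbitrary `n ≥ 2`; copy from that file.

* `cone_pt`: for `v ≠ 0`, `|arg ω| < π / n`, `ω ^ n * v ^ 2 = stretch L v ^ 2`, `t ≥ 0` one has
  `(ω - 1) * v ^ 2 ≠ - t`. Proof: `q = stretch L v / v`; `v = x + i y`,
  `q * ‖v‖ ^ 2 = stretch L v * conj v = (L x ^ 2 + L⁻¹ y ^ 2) - i (L - L⁻¹) x y`, so `0 < re q`,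
  `ω ^ n = q ^ 2`. Taking logarithms (`|n arg ω| < π`, `|2 arg q| < π`):
  `ω = exp ((2 / n) log q)`, `arg ω = (2 / n) arg q`. If `x y ≠ 0` then `im q * (x y) < 0`, hence
  `im ω * (x y) < 0` (`0 < |arg ω| < π`, the sign of the sine); but `(ω - 1) v ^ 2 = - t`
  multiplied by
  `conj (v ^ 2)` gives `im ω * ‖v‖ ^ 4 = t * im (v ^ 2) = 2 t x y`, so `im ω * (x y) ≥ 0`. If `y =
  0` then
  `q = L`, `ω = L ^ (2 / n) > 1` is real and `v ^ 2 = x ^ 2 > 0`; if `x = 0` then `q = L⁻¹`,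
  `ω < 1` real, `v ^ 2 = - y ^ 2 < 0`: in both cases `(ω - 1) v ^ 2 > 0`.
* `cone_angle`: by compactness. `Ω v = exp ((2 / n) log (stretch L v / v))` is continuous on the
  unit
  circle (`stretch L v / v` is in the slit plane), and `(v, s) ↦ (1 - s) (Ω v - 1) v ^ 2 + s` does
  not
  vanish on (circle) × `[0, 1]` (`cone_pt` with `t = s / (1 - s)`; for `s = 1` clear), so its norm
  is
  `≥ δ > 0`, `δ ≤ 1`. For `u ≠ 0` choose `v` with `v ^ 2 = u ^ n` (`IsAlgClosed.exists_pow_nat_eq`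
  or
  `Complex.cpow`), `v = ‖v‖ v₁`, `stretch L` is real homogeneous, `ω = Ω v₁`, `U = ‖u‖ ^ n = ‖v‖ ^
  2`,
  `s = a / (U + a)`: `(ω - 1) u ^ n + a = (U + a) ((1 - s) (ω - 1) v₁ ^ 2 + s)`.
* `norm_le`: `‖ω‖ ^ n = ‖stretch L v‖ ^ 2 / ‖v‖ ^ 2 ≤ L ^ 2 ≤ L ^ n`.
* `cone_ineq`: as in `ConeA`, with `2 κ` replaced by `n`; `c = conj a₀ ^ (n - 1) / a₀`.
-/

set_option autoImplicit false
set_option linter.unusedSectionVars false

open Set Filter Topology
open scoped UpperHalfPlane ComplexConjugate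

namespace Pool.Agent.ANO2.Idx2

open Pool.Agent.ANO

private theorem q_re_ConeN {L : ℝ} (hL : 1 < L) {v : ℂ} (hv : v ≠ 0) :
    0 < (stretch L v / v).re := by
  have hL0 : 0 < L := by linarith
  have hLi : 0 < L⁻¹ := inv_pos.2 hL0
  have hN : 0 < Complex.normSq v := Complex.normSq_pos.2 hv
  have e : (stretch L v / v).re = (L * v.re ^ 2 + L⁻¹ * v.im ^ 2) / Complex.normSq v := by
    rw [Complex.div_re]
    unfold stretch
    dsimp only
    field_simp
  rw [e]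
  apply div_pos _ hN
  have h1 : Complex.normSq v = v.re * v.re + v.im * v.im := Complex.normSq_apply v
  rcases eq_or_ne v.re 0 with h | h
  · have h2 : v.im ≠ 0 := by
      intro h3
      exact hv (Complex.ext h h3)
    have : 0 < v.im ^ 2 := by positivity
    have : 0 ≤ v.re ^ 2 := sq_nonneg _
    positivity
  · have : 0 < v.re ^ 2 := by positivity
    have : 0 ≤ v.im ^ 2 := sq_nonneg _
    positivity

private theorem q_im_ConeN {L : ℝ} {v : ℂ} :
    (stretch L v / v).im = -((L - L⁻¹) * (v.re * v.im)) / Complex.normSq v := by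
  rw [Complex.div_im]
  unfold stretch
  dsimp only
  ring

private theorem log_eq_ConeN {n : ℕ} (hn : 2 ≤ n) {ω q : ℂ} (hq : 0 < q.re)
    (hω : |ω.arg| < Real.pi / n) (h : ω ^ n = q ^ 2) :
    (n : ℂ) * Complex.log ω = 2 * Complex.log q := by
  have hn0 : (0 : ℝ) < n := by
    have : (2 : ℝ) ≤ n := by exact_mod_cast hn
    linarith
  have hq0 : q ≠ 0 := by
    rintro rfl
    simp at hq
  have hω0 : ω ≠ 0 := by
    rintro rfl
    rw [zero_pow (by omega)] at h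
    exact (pow_ne_zero 2 hq0) h.symm
  have h1 : |(n : ℝ) * ω.arg| < Real.pi := by
    rw [abs_mul, abs_of_pos hn0]
    calc (n : ℝ) * |ω.arg| < n * (Real.pi / n) := mul_lt_mul_of_pos_left hω hn0
      _ = Real.pi := by field_simp
  have h2 : |2 * q.arg| < Real.pi := by
    rw [abs_mul, abs_of_pos (by norm_num : (0 : ℝ) < 2)]
    have := Complex.abs_arg_lt_pi_div_two_iff.2 (Or.inl hq)
    linarith
  have e1 : ((n : ℂ) * Complex.log ω).im = n * ω.arg := by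
    rw [← Complex.ofReal_natCast, Complex.im_ofReal_mul, Complex.log_im]
  have e2 : (2 * Complex.log q).im = 2 * q.arg := by
    simp [Complex.log_im]
  apply Complex.exp_inj_of_neg_pi_lt_of_le_pi
  · rw [e1]; exact (abs_lt.1 h1).1
  · rw [e1]; exact (abs_lt.1 h1).2.le
  · rw [e2]; exact (abs_lt.1 h2).1
  · rw [e2]; exact (abs_lt.1 h2).2.le
  · rw [Complex.exp_nat_mul, Complex.exp_log hω0, h]
    have : (2 : ℂ) * Complex.log q = ((2 : ℕ) : ℂ) * Complex.log q := by norm_num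
    rw [this, Complex.exp_nat_mul, Complex.exp_log hq0]

theorem cone_pt {n : ℕ} (hn : 2 ≤ n) {L : ℝ} (hL : 1 < L) {ω v : ℂ} (hv : v ≠ 0)
    (hω : |ω.arg| < Real.pi / n) (h : ω ^ n * v ^ 2 = stretch L v ^ 2) {t : ℝ} (ht : 0 ≤ t) :
    (ω - 1) * v ^ 2 + t ≠ 0 := by
  intro h0
  have hL0 : 0 < L := by linarith
  have hLi1 : L⁻¹ < 1 := inv_lt_one_of_one_lt₀ hL
  have hLi0 : 0 < L⁻¹ := inv_pos.2 hL0
  have hn2 : (2 : ℝ) ≤ n := by exact_mod_cast hn
  have hn0 : (0 : ℝ) < n := by linarith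
  have hN : 0 < Complex.normSq v := Complex.normSq_pos.2 hv
  obtain ⟨q, hq⟩ : ∃ q, q = stretch L v / v := ⟨_, rfl⟩
  have hqre : 0 < q.re := by rw [hq]; exact q_re_ConeN hL hv
  have hqim : q.im = -((L - L⁻¹) * (v.re * v.im)) / Complex.normSq v := by
    rw [hq]; exact q_im_ConeN
  have hq2 : ω ^ n = q ^ 2 := by
    rw [hq, div_pow, ← h]
    field_simp
  have hlog := log_eq_ConeN hn hqre hω hq2
  have harg : (n : ℝ) * ω.arg = 2 * q.arg := by
    have h1 := congrArg Complex.im hlog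
    rw [← Complex.ofReal_natCast, Complex.im_ofReal_mul, Complex.log_im] at h1
    rw [h1]
    simp [Complex.log_im]
  -- the relation
  have him : ω.im * Complex.normSq v ^ 2 = 2 * t * (v.re * v.im) := by
    have h1 : (ω - 1) * v ^ 2 * (conj v) ^ 2 = -(t : ℂ) * (conj v) ^ 2 := by
      have h2 : (ω - 1) * v ^ 2 = -(t : ℂ) := by linear_combination h0
      rw [h2]
    have h3 : v * conj v = ((Complex.normSq v : ℝ) : ℂ) := Complex.mul_conj v
    have h4 : (ω - 1) * ((Complex.normSq v ^ 2 : ℝ) : ℂ) = -(t : ℂ) * (conj v) ^ 2 := by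
      rw [← h1]
      push_cast
      rw [← h3]
      ring
    have h5 := congrArg Complex.im h4
    rw [Complex.im_mul_ofReal, Complex.sub_im, Complex.one_im, sub_zero] at h5
    rw [h5, sq]
    simp only [Complex.neg_im, neg_mul, Complex.mul_im, Complex.conj_re, Complex.conj_im,
      Complex.ofReal_re, Complex.ofReal_im, zero_mul, add_zero]
    ring
  have hωpi : |ω.arg| < Real.pi := by
    refine lt_of_lt_of_le hω ?_
    rw [div_le_iff₀ hn0]
    nlinarith [Real.pi_pos]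
  have hLL : 0 < L - L⁻¹ := by linarith
  rcases lt_trichotomy (v.re * v.im) 0 with hP | hP | hP
  · have hqp : 0 < q.im := by
      rw [hqim]
      apply div_pos _ hN
      nlinarith
    have hb : 0 < q.arg := by
      rcases (Complex.arg_nonneg_iff.2 hqp.le).eq_or_lt with h1 | h1
      · exfalso
        have := (Complex.arg_eq_zero_iff.1 h1.symm).2
        linarith
      · exact h1
    have ha : 0 < ω.arg := by
      by_contra hc
      push Not at hc
      nlinarith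
    have hω1 : 0 < ω.im := by
      have h2 : 0 < Real.sin ω.arg := Real.sin_pos_of_pos_of_lt_pi ha (abs_lt.1 hωpi).2
      have h3 : ω ≠ 0 := by
        rintro rfl
        simp at ha
      rw [← Complex.norm_mul_sin_arg ω]
      exact mul_pos (norm_pos_iff.2 h3) h2
    have h6 : 0 < ω.im * Complex.normSq v ^ 2 := by positivity
    rw [him] at h6
    nlinarith
  · have hq0 : q.arg = 0 := by
      rw [Complex.arg_eq_zero_iff]
      refine ⟨hqre.le, ?_⟩
      rw [hqim, hP]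
      simp
    have ha : ω.arg = 0 := by
      rw [hq0, mul_zero] at harg
      exact (mul_eq_zero.1 harg).resolve_left hn0.ne'
    obtain ⟨ha1, ha2⟩ := Complex.arg_eq_zero_iff.1 ha
    obtain ⟨hq1, hq3⟩ := Complex.arg_eq_zero_iff.1 hq0
    have eω : ω = ((ω.re : ℝ) : ℂ) := Complex.ext (by simp) (by simpa using ha2)
    have eq' : q = ((q.re : ℝ) : ℂ) := Complex.ext (by simp) (by simpa using hq3)
    have hr : ω.re ^ n = q.re ^ 2 := by
      have h1 := hq2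
      rw [eω, eq'] at h1
      exact_mod_cast h1
    have hre := congrArg Complex.re h0
    rcases mul_eq_zero.1 hP with hx | hy
    · -- `x = 0`
      have hy0 : v.im ≠ 0 := fun h3 => hv (Complex.ext hx h3)
      have hqL : q.re = L⁻¹ := by
        rw [hq, Complex.div_re, Complex.normSq_apply]
        unfold stretch
        dsimp only
        rw [hx]
        field_simp
        ring
      have hlt : ω.re < 1 := by
        by_contra hc
        push Not at hc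
        have h1 : 1 ≤ ω.re ^ n := one_le_pow₀ hc
        rw [hr, hqL] at h1
        nlinarith
      have e1 : ((ω - 1) * v ^ 2 + t).re = (1 - ω.re) * v.im ^ 2 + t := by
        rw [eω]
        simp only [sq, Complex.add_re, Complex.mul_re, Complex.sub_re, Complex.ofReal_re,
          Complex.one_re, Complex.sub_im, Complex.ofReal_im, Complex.one_im, Complex.mul_im, hx]
        ring
      rw [e1, Complex.zero_re] at hre
      have : 0 < (1 - ω.re) * v.im ^ 2 := by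
        have : 0 < v.im ^ 2 := by positivity
        have : 0 < 1 - ω.re := by linarith
        positivity
      linarith
    · have hx0 : v.re ≠ 0 := fun h3 => hv (Complex.ext h3 hy)
      have hqL : q.re = L := by
        rw [hq, Complex.div_re, Complex.normSq_apply]
        unfold stretch
        dsimp only
        rw [hy]
        field_simp
        ring
      have hlt : 1 < ω.re := by
        by_contra hc
        push Not at hc
        have h1 : ω.re ^ n ≤ 1 := pow_le_one₀ ha1 hc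
        rw [hr, hqL] at h1
        nlinarith
      have e1 : ((ω - 1) * v ^ 2 + t).re = (ω.re - 1) * v.re ^ 2 + t := by
        rw [eω]
        simp only [sq, Complex.add_re, Complex.mul_re, Complex.sub_re, Complex.ofReal_re,
          Complex.one_re, Complex.sub_im, Complex.ofReal_im, Complex.one_im, Complex.mul_im, hy]
        ring
      rw [e1, Complex.zero_re] at hre
      have : 0 < (ω.re - 1) * v.re ^ 2 := by
        have : 0 < v.re ^ 2 := by positivity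
        have : 0 < ω.re - 1 := by linarith
        positivity
      linarith
  · have hqn : q.im < 0 := by
      rw [hqim]
      apply div_neg_of_neg_of_pos _ hN
      nlinarith
    have hb : q.arg < 0 := Complex.arg_neg_iff.2 hqn
    have ha : ω.arg < 0 := by
      by_contra hc
      push Not at hc
      nlinarith
    have hω1 : ω.im < 0 := Complex.arg_neg_iff.1 ha
    have h6 : ω.im * Complex.normSq v ^ 2 < 0 := mul_neg_of_neg_of_pos hω1 (by positivity)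
    rw [him] at h6
    nlinarith

/-- the solution `ω` as a function of `v` -/
private noncomputable def Om_ConeN (n : ℕ) (L : ℝ) (v : ℂ) : ℂ :=
  Complex.exp ((2 / (n : ℂ)) * Complex.log (stretch L v / v))

private theorem om_eq_ConeN {n : ℕ} (hn : 2 ≤ n) {L : ℝ} (hL : 1 < L) {ω v : ℂ} (hv : v ≠ 0)
    (hω : |ω.arg| < Real.pi / n) (h : ω ^ n * v ^ 2 = stretch L v ^ 2) :
    ω = Om_ConeN n L v := by
  have hn0 : (n : ℂ) ≠ 0 := by
    have : n ≠ 0 := by omega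
    exact_mod_cast this
  have hqre := q_re_ConeN hL hv
  have hq2 : ω ^ n = (stretch L v / v) ^ 2 := by
    rw [div_pow, ← h]
    field_simp
  have hq0 : stretch L v / v ≠ 0 := by
    intro h1
    rw [h1] at hqre
    simp at hqre
  have hω0 : ω ≠ 0 := by
    rintro rfl
    rw [zero_pow (by omega)] at hq2
    exact (pow_ne_zero 2 hq0) hq2.symm
  have hlog := log_eq_ConeN hn hqre hω hq2
  unfold Om_ConeN
  have : (2 / (n : ℂ)) * Complex.log (stretch L v / v) = Complex.log ω := by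
    field_simp
    rw [← hlog]
  rw [this, Complex.exp_log hω0]

private theorem om_spec_ConeN {n : ℕ} (hn : 2 ≤ n) {L : ℝ} (hL : 1 < L) {v : ℂ} (hv : v ≠ 0) :
    |(Om_ConeN n L v).arg| < Real.pi / n ∧ Om_ConeN n L v ^ n * v ^ 2 = stretch L v ^ 2 := by
  have hn2 : (2 : ℝ) ≤ n := by exact_mod_cast hn
  have hn0 : (0 : ℝ) < n := by linarith
  have hnc : (n : ℂ) ≠ 0 := by
    have : n ≠ 0 := by omega
    exact_mod_cast this
  have hqre := q_re_ConeN hL hv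
  have hq0 : stretch L v / v ≠ 0 := by
    intro h1
    rw [h1] at hqre
    simp at hqre
  constructor
  · have h2 := Complex.abs_arg_lt_pi_div_two_iff.2 (Or.inl hqre)
    have e1 : ((2 / (n : ℂ)) * Complex.log (stretch L v / v)).im =
        2 / n * (stretch L v / v).arg := by
      have : (2 / (n : ℂ)) = ((2 / n : ℝ) : ℂ) := by push_cast; ring
      rw [this, Complex.im_ofReal_mul, Complex.log_im]
    have h3 : |2 / n * (stretch L v / v).arg| < Real.pi / n := by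
      rw [abs_mul, abs_of_pos (by positivity : (0 : ℝ) < 2 / n)]
      calc 2 / (n : ℝ) * |(stretch L v / v).arg| < 2 / n * (Real.pi / 2) :=
            mul_lt_mul_of_pos_left h2 (by positivity)
        _ = Real.pi / n := by field_simp
    have h4 : Real.pi / n ≤ Real.pi := by
      rw [div_le_iff₀ hn0]
      nlinarith [Real.pi_pos]
    unfold Om_ConeN
    have h5 := Complex.log_exp (x := (2 / (n : ℂ)) * Complex.log (stretch L v / v))
      (by rw [e1]; linarith [(abs_lt.1 h3).1]) (by rw [e1]; linarith [(abs_lt.1 h3).2])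
    rw [← Complex.log_im, h5, e1]
    exact h3
  · unfold Om_ConeN
    rw [← Complex.exp_nat_mul]
    have : (n : ℂ) * (2 / (n : ℂ) * Complex.log (stretch L v / v)) =
        ((2 : ℕ) : ℂ) * Complex.log (stretch L v / v) := by
      push_cast
      field_simp
    rw [this, Complex.exp_nat_mul, Complex.exp_log hq0, div_pow]
    field_simp

private theorem cont_stretch_ConeN (L : ℝ) : Continuous (stretch L) := by
  have : stretch L = fun z : ℂ => ((L * z.re : ℝ) : ℂ) + ((L⁻¹ * z.im : ℝ) : ℂ) * Complex.I := by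
    funext z
    apply Complex.ext <;> simp [stretch]
  rw [this]
  fun_prop

private theorem cont_om_ConeN {n : ℕ} {L : ℝ} (hL : 1 < L) {v : ℂ} (hv : v ≠ 0) :
    ContinuousAt (Om_ConeN n L) v := by
  unfold Om_ConeN
  have h1 : ContinuousAt (fun v : ℂ => stretch L v / v) v :=
    (cont_stretch_ConeN L).continuousAt.div continuousAt_id hv
  have h2 : ContinuousAt (fun v : ℂ => Complex.log (stretch L v / v)) v :=
    h1.clog (Or.inl (q_re_ConeN hL hv))
  exact (continuousAt_const.mul h2).cexp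

theorem cone_angle {n : ℕ} (hn : 2 ≤ n) {L : ℝ} (hL : 1 < L) : ∃ δ > 0, ∀ (ω u : ℂ) (a : ℝ),
    |ω.arg| < Real.pi / n → (∀ v : ℂ, v ^ 2 = u ^ n → (ω * u) ^ n = stretch L v ^ 2) → 0 ≤ a →
      δ * (‖u‖ ^ n + a) ≤ ‖(ω - 1) * u ^ n + a‖ := by
  have hn0 : n ≠ 0 := by omega
  obtain ⟨F, hF⟩ : ∃ F : ℂ × ℝ → ℝ, F = fun p =>
      ‖(1 - (p.2 : ℂ)) * ((Om_ConeN n L p.1 - 1) * p.1 ^ 2) + (p.2 : ℂ)‖ := ⟨_, rfl⟩
  have hK : IsCompact (Metric.sphere (0 : ℂ) 1 ×ˢ Icc (0 : ℝ) 1) :=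
    (isCompact_sphere _ _).prod isCompact_Icc
  have hne : (Metric.sphere (0 : ℂ) 1 ×ˢ Icc (0 : ℝ) 1).Nonempty :=
    ⟨(1, 0), by simp, by simp⟩
  have hc : ContinuousOn F (Metric.sphere (0 : ℂ) 1 ×ˢ Icc (0 : ℝ) 1) := by
    intro p hp
    have hp1 : p.1 ≠ 0 := by
      intro h0
      have := hp.1
      rw [h0] at this
      simp at this
    rw [hF]
    have h1 : ContinuousAt (fun p : ℂ × ℝ => Om_ConeN n L p.1) p :=
      ContinuousAt.comp (f := fun p : ℂ × ℝ => p.1) (cont_om_ConeN hL hp1) continuousAt_fst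
    have h2 : ContinuousAt (fun p : ℂ × ℝ => ((p.2 : ℝ) : ℂ)) p :=
      (Complex.continuous_ofReal.comp continuous_snd).continuousAt
    have h3 : ContinuousAt (fun p : ℂ × ℝ => p.1 ^ 2) p := (continuous_fst.pow 2).continuousAt
    exact (((continuousAt_const.sub h2).mul ((h1.sub continuousAt_const).mul h3)).add
      h2).norm.continuousWithinAt
  have hpos : ∀ p ∈ Metric.sphere (0 : ℂ) 1 ×ˢ Icc (0 : ℝ) 1, 0 < F p := by
    rintro ⟨v, s⟩ ⟨hv, hs⟩
    have hv0 : v ≠ 0 := by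
      rintro rfl
      simp at hv
    rw [hF]
    apply norm_pos_iff.2
    show (1 - (s : ℂ)) * ((Om_ConeN n L v - 1) * v ^ 2) + (s : ℂ) ≠ 0
    rcases hs.2.eq_or_lt with h1 | h1
    · have h1' : s = 1 := h1
      rw [h1']
      simp
    · have h1' : s < 1 := h1
      obtain ⟨g1, g2⟩ := om_spec_ConeN hn hL hv0
      have h2 := cone_pt hn hL hv0 g1 g2 (t := s / (1 - s))
        (div_nonneg hs.1 (by linarith))
      intro h3
      apply h2
      have h4 : (1 - (s : ℂ)) ≠ 0 := by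
        intro h5
        have h6 : (1 : ℂ) = (s : ℂ) := sub_eq_zero.1 h5
        have h7 : (1 : ℝ) = s := by exact_mod_cast h6
        linarith
      have h8 : (Om_ConeN n L v - 1) * v ^ 2 + ((s / (1 - s) : ℝ) : ℂ) =
          ((1 - (s : ℂ)) * ((Om_ConeN n L v - 1) * v ^ 2) + (s : ℂ)) / (1 - (s : ℂ)) := by
        push_cast
        field_simp
      rw [h8, h3, zero_div]
  obtain ⟨p₀, hp₀, hmin⟩ := hK.exists_isMinOn hne hc
  refine ⟨min (F p₀) 1, lt_min (hpos p₀ hp₀) one_pos, fun ω u a hω h ha => ?_⟩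
  by_cases hu : u = 0
  · subst hu
    have hz : (0 : ℂ) ^ n = 0 := zero_pow hn0
    have hz' : (0 : ℝ) ^ n = 0 := zero_pow hn0
    rw [hz, norm_zero, hz', mul_zero, zero_add, zero_add, Complex.norm_real, Real.norm_eq_abs,
      abs_of_nonneg ha]
    exact mul_le_of_le_one_left ha (min_le_right _ _)
  · obtain ⟨v, hv⟩ : ∃ v : ℂ, v ^ 2 = u ^ n := IsAlgClosed.exists_pow_nat_eq _ (by norm_num)
    have hun : u ^ n ≠ 0 := pow_ne_zero _ hu
    have hv0 : v ≠ 0 := by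
      rintro rfl
      rw [zero_pow two_ne_zero] at hv
      exact hun hv.symm
    obtain ⟨r, hr⟩ : ∃ r : ℝ, r = ‖v‖ := ⟨_, rfl⟩
    have hr0 : 0 < r := by rw [hr]; exact norm_pos_iff.2 hv0
    have hrc : (r : ℂ) ≠ 0 := Complex.ofReal_ne_zero.2 hr0.ne'
    obtain ⟨v₁, hv₁⟩ : ∃ v₁ : ℂ, v₁ = v / r := ⟨_, rfl⟩
    have hvr : v = r * v₁ := by rw [hv₁]; field_simp
    have hv₁n : ‖v₁‖ = 1 := by
      rw [hv₁, norm_div, Complex.norm_real, Real.norm_eq_abs, abs_of_pos hr0, ← hr,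
        div_self hr0.ne']
    have hv₁0 : v₁ ≠ 0 := by
      rintro rfl
      simp at hv₁n
    have hst : stretch L v = r * stretch L v₁ := by
      rw [hvr]
      apply Complex.ext <;> simp [stretch] <;> ring
    have h1 : ω ^ n * v₁ ^ 2 = stretch L v₁ ^ 2 := by
      have h2 := h v hv
      rw [mul_pow, ← hv, hst, hvr] at h2
      have h3 : (r : ℂ) ^ 2 * (ω ^ n * v₁ ^ 2) = (r : ℂ) ^ 2 * stretch L v₁ ^ 2 := by
        linear_combination h2
      exact mul_left_cancel₀ (pow_ne_zero 2 hrc) h3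
    have hωΩ := om_eq_ConeN hn hL hv₁0 hω h1
    obtain ⟨U, hU⟩ : ∃ U, U = ‖u‖ ^ n := ⟨_, rfl⟩
    have hU0 : 0 < U := by rw [hU]; exact pow_pos (norm_pos_iff.2 hu) _
    have hUr : U = r ^ 2 := by rw [hU, ← norm_pow, ← hv, norm_pow, hr]
    have hUa : 0 < U + a := by linarith
    have hs : a / (U + a) ∈ Icc (0 : ℝ) 1 := by
      refine ⟨div_nonneg ha hUa.le, ?_⟩
      rw [div_le_one hUa]
      linarith
    have h4 := hmin (show (v₁, a / (U + a)) ∈ Metric.sphere (0 : ℂ) 1 ×ˢ Icc (0 : ℝ) 1 from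
      ⟨by simpa using hv₁n, hs⟩)
    have h5 : F p₀ ≤ F (v₁, a / (U + a)) := h4
    have h6 : (ω - 1) * u ^ n + a = ((U + a : ℝ) : ℂ) *
        ((1 - ((a / (U + a) : ℝ) : ℂ)) * ((Om_ConeN n L v₁ - 1) * v₁ ^ 2) +
          ((a / (U + a) : ℝ) : ℂ)) := by
      have h7 : ((U + a : ℝ) : ℂ) ≠ 0 := Complex.ofReal_ne_zero.2 hUa.ne'
      have h8 : ((U + a : ℝ) : ℂ) * ((a / (U + a) : ℝ) : ℂ) = (a : ℂ) := by
        rw [← Complex.ofReal_mul]
        congr 1
        field_simp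
      have h9 : ((U + a : ℝ) : ℂ) * (1 - ((a / (U + a) : ℝ) : ℂ)) = (r : ℂ) ^ 2 := by
        rw [mul_sub, h8, mul_one, hUr]
        push_cast
        ring
      rw [← hωΩ, ← hv, hvr, mul_add, h8, ← mul_assoc, h9]
      ring
    rw [h6, norm_mul, Complex.norm_real, Real.norm_eq_abs, abs_of_pos hUa, mul_comm, ← hU]
    refine mul_le_mul_of_nonneg_left ?_ hUa.le
    refine (min_le_left _ _).trans (h5.trans (le_of_eq ?_))
    rw [hF]

private theorem norm_stretch_ConeN {L : ℝ} (hL : 1 < L) (Z : ℂ) : ‖stretch L Z‖ ≤ L * ‖Z‖ := by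
  have hL0 : 0 < L := by linarith
  have hLi : L⁻¹ ≤ L := by
    rw [inv_le_iff_one_le_mul₀ hL0]
    nlinarith
  have hLi0 : 0 < L⁻¹ := inv_pos.2 hL0
  refine abs_le_of_sq_le_sq' ?_ (by positivity) |>.2
  rw [mul_pow, Complex.sq_norm, Complex.sq_norm, Complex.normSq_apply, Complex.normSq_apply]
  unfold stretch
  dsimp only
  have h1 : (L⁻¹) ^ 2 ≤ L ^ 2 := pow_le_pow_left₀ hLi0.le hLi 2
  nlinarith [mul_self_nonneg Z.im, mul_le_mul_of_nonneg_right h1 (mul_self_nonneg Z.im)]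

theorem norm_le {n : ℕ} (hn : 2 ≤ n) {L : ℝ} (hL : 1 < L) {ω u : ℂ} (hu : u ≠ 0)
    (h : ∀ v : ℂ, v ^ 2 = u ^ n → (ω * u) ^ n = stretch L v ^ 2) : ‖ω‖ ≤ L := by
  have hL0 : 0 < L := by linarith
  have hn0 : n ≠ 0 := by omega
  obtain ⟨v, hv⟩ : ∃ v : ℂ, v ^ 2 = u ^ n := IsAlgClosed.exists_pow_nat_eq _ (by norm_num)
  have h1 := h v hv
  have h2 : ‖ω‖ ^ n * ‖u‖ ^ n = ‖stretch L v‖ ^ 2 := by
    rw [← mul_pow, ← norm_mul, ← norm_pow, h1, norm_pow]
  have h3 : ‖v‖ ^ 2 = ‖u‖ ^ n := by rw [← norm_pow, hv, norm_pow]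
  have h4 : ‖stretch L v‖ ^ 2 ≤ L ^ 2 * ‖u‖ ^ n := by
    rw [← h3, ← mul_pow]
    exact pow_le_pow_left₀ (norm_nonneg _) (norm_stretch_ConeN hL v) 2
  rw [← h2] at h4
  have h5 : ‖ω‖ ^ n ≤ L ^ 2 := le_of_mul_le_mul_right h4 (pow_pos (norm_pos_iff.2 hu) _)
  have h6 : L ^ 2 ≤ L ^ n := pow_le_pow_right₀ hL.le hn
  exact le_of_pow_le_pow_left₀ hn0 hL0.le (h5.trans h6)

private theorem pow_sub_ConeN {w u : ℂ} (n : ℕ) (hw : ‖w‖ ≤ 2 * ‖u‖) :
    ‖w ^ n - u ^ n‖ ≤ n * 2 ^ n * ‖u‖ ^ (n - 1) * ‖w - u‖ := by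
  rw [← Commute.mul_geom_sum₂ (Commute.all w u), norm_mul, mul_comm]
  refine mul_le_mul_of_nonneg_right ?_ (norm_nonneg _)
  refine (norm_sum_le _ _).trans ?_
  calc ∑ i ∈ Finset.range n, ‖w ^ i * u ^ (n - 1 - i)‖
      ≤ ∑ _i ∈ Finset.range n, 2 ^ n * ‖u‖ ^ (n - 1) := by
        refine Finset.sum_le_sum fun i hi => ?_
        have hi' : i < n := Finset.mem_range.1 hi
        rw [norm_mul, norm_pow, norm_pow]
        calc ‖w‖ ^ i * ‖u‖ ^ (n - 1 - i) ≤ (2 * ‖u‖) ^ i * ‖u‖ ^ (n - 1 - i) :=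
              mul_le_mul_of_nonneg_right (pow_le_pow_left₀ (norm_nonneg _) hw i)
                (by positivity)
          _ = 2 ^ i * ‖u‖ ^ (n - 1) := by
              rw [mul_pow, mul_assoc, ← pow_add]
              congr 2
              omega
          _ ≤ 2 ^ n * ‖u‖ ^ (n - 1) :=
              mul_le_mul_of_nonneg_right (pow_le_pow_right₀ (by norm_num) hi'.le)
                (by positivity)
    _ = n * 2 ^ n * ‖u‖ ^ (n - 1) := by
        rw [Finset.sum_const, Finset.card_range, nsmul_eq_mul]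
        ring

/-- the algebra of the main inequality -/
private theorem alg_ConeN {k : ℕ} (hk : 2 ≤ k) {L : ℝ} (hL : 1 < L) {δ : ℝ}
    (hδ0 : 0 < δ) (hδ : ∀ (ω u : ℂ) (a : ℝ),
      |ω.arg| < Real.pi / k → (∀ v : ℂ, v ^ 2 = u ^ k → (ω * u) ^ k = stretch L v ^ 2) → 0 ≤ a →
      δ * (‖u‖ ^ k + a) ≤ ‖(ω - 1) * u ^ k + a‖) {η : ℝ} (hη0 : 0 ≤ η) (hη1 : η ≤ 1)
    (hη : η * ((1 + L) * ((k : ℝ) * 2 ^ k + 2 ^ k)) < δ)
    {a₀ d x ω u : ℂ} (ha₀ : a₀ ≠ 0) (hd : d ≠ 0)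
    (hω : |ω.arg| < Real.pi / k) (h : ∀ v : ℂ, v ^ 2 = u ^ k → (ω * u) ^ k = stretch L v ^ 2)
    (h1 : ‖a₀ * d - u‖ ≤ η * ‖u‖) (h2 : ‖a₀ * x - (ω - 1) * u‖ ≤ η * (1 + L) * ‖u‖)
    {t : ℝ} (ht : t ∈ Icc (0 : ℝ) 1) :
    ((1 - t : ℝ) : ℂ) * x + (t : ℂ) * (conj a₀ ^ (k - 1) / a₀ * conj d ^ (k - 1)) ≠ 0 := by
  intro h0
  have hw0 : a₀ * d ≠ 0 := mul_ne_zero ha₀ hd
  have hu0 : u ≠ 0 := by
    rintro rfl
    rw [norm_zero, mul_zero, sub_zero] at h1
    exact hw0 (norm_le_zero_iff.1 h1)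
  obtain ⟨w, hw⟩ : ∃ w, w = a₀ * d := ⟨_, rfl⟩
  obtain ⟨n, hn⟩ : ∃ n, n = k - 1 := ⟨_, rfl⟩
  have hn1 : k = n + 1 := by omega
  rw [← hw] at h1 hw0
  rw [← hn] at h0
  have hwn : ‖w‖ ≤ 2 * ‖u‖ := by
    have h3 : w = (w - u) + u := by ring
    calc ‖w‖ = ‖(w - u) + u‖ := by rw [← h3]
      _ ≤ ‖w - u‖ + ‖u‖ := norm_add_le _ _
      _ ≤ 2 * ‖u‖ := by nlinarith [norm_nonneg u]
  -- multiply by `a₀ * w ^ n`
  have h4 : ((1 - t : ℝ) : ℂ) * (a₀ * x * w ^ n) + ((t * (‖w‖ ^ 2) ^ n : ℝ) : ℂ) = 0 := by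
    have h5 : (((‖w‖ ^ 2) ^ n : ℝ) : ℂ) = conj a₀ ^ n * conj d ^ n * w ^ n := by
      rw [← mul_pow, ← mul_pow, ← map_mul, ← hw]
      push_cast
      rw [Complex.conj_mul']
    rw [Complex.ofReal_mul, h5]
    have h6 : ((1 - t : ℝ) : ℂ) * (a₀ * x * w ^ n) + (t : ℂ) * (conj a₀ ^ n * conj d ^ n * w ^ n) =
        (a₀ * w ^ n) * (((1 - t : ℝ) : ℂ) * x + (t : ℂ) * (conj a₀ ^ n / a₀ * conj d ^ n)) := by
      field_simp
    rw [h6, h0, mul_zero]
  rcases eq_or_lt_of_le ht.2 with ht1 | ht1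
  · rw [ht1] at h4
    simp only [sub_self, Complex.ofReal_zero, zero_mul, one_mul, zero_add] at h4
    rw [Complex.ofReal_eq_zero] at h4
    exact (pow_ne_zero n (pow_ne_zero 2 (norm_ne_zero_iff.2 hw0))) h4
  · have ht1' : (0 : ℝ) < 1 - t := by linarith
    obtain ⟨a, ha⟩ : ∃ a : ℝ, a = t / (1 - t) * (‖w‖ ^ 2) ^ n := ⟨_, rfl⟩
    have ha0 : 0 ≤ a := by
      rw [ha]
      have := ht.1
      positivity
    have h7 : a₀ * x * w ^ n + (a : ℂ) = 0 := by
      have h8 : ((1 - t : ℝ) : ℂ) ≠ 0 := Complex.ofReal_ne_zero.2 ht1'.ne'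
      have h9 : ((1 - t : ℝ) : ℂ) * (a₀ * x * w ^ n + (a : ℂ)) = 0 := by
        rw [mul_add, ← Complex.ofReal_mul, ha]
        have h10 : (1 - t) * (t / (1 - t) * (‖w‖ ^ 2) ^ n) = t * (‖w‖ ^ 2) ^ n := by
          field_simp
        rw [h10]
        exact h4
      exact (mul_eq_zero.1 h9).resolve_left h8
    obtain ⟨U, hU⟩ : ∃ U, U = ‖u‖ ^ k := ⟨_, rfl⟩
    have hU0 : 0 < U := by
      rw [hU]
      exact pow_pos (norm_pos_iff.2 hu0) _
    have hUn : U = ‖u‖ * ‖u‖ ^ n := by rw [hU, hn1, pow_succ']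
    -- the error
    have h11 : ‖a₀ * x * w ^ n - (ω - 1) * u ^ k‖ ≤
        η * ((1 + L) * ((k : ℝ) * 2 ^ k + 2 ^ k)) * U := by
      have e : a₀ * x * w ^ n - (ω - 1) * u ^ k =
          (a₀ * x - (ω - 1) * u) * w ^ n + (ω - 1) * u * (w ^ n - u ^ n) := by
        rw [hn1, pow_succ']
        ring
      have hω1 : ‖ω - 1‖ ≤ 1 + L := by
        have h7 := norm_le hk hL hu0 h
        calc ‖ω - 1‖ ≤ ‖ω‖ + ‖(1 : ℂ)‖ := norm_sub_le _ _
          _ ≤ 1 + L := by rw [norm_one]; linarith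
      have h12 : ‖(a₀ * x - (ω - 1) * u) * w ^ n‖ ≤ η * (1 + L) * 2 ^ n * U := by
        rw [norm_mul, norm_pow]
        calc ‖a₀ * x - (ω - 1) * u‖ * ‖w‖ ^ n ≤ (η * (1 + L) * ‖u‖) * (2 * ‖u‖) ^ n :=
              mul_le_mul h2 (pow_le_pow_left₀ (norm_nonneg _) hwn n) (by positivity)
                (by positivity)
          _ = η * (1 + L) * 2 ^ n * U := by
              rw [hUn, mul_pow]
              ring
      have h13 : ‖(ω - 1) * u * (w ^ n - u ^ n)‖ ≤ η * (1 + L) * (n * 2 ^ n) * U := by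
        rw [norm_mul, norm_mul]
        calc ‖ω - 1‖ * ‖u‖ * ‖w ^ n - u ^ n‖
            ≤ (1 + L) * ‖u‖ * (n * 2 ^ n * ‖u‖ ^ (n - 1) * (η * ‖u‖)) := by
              refine mul_le_mul (mul_le_mul_of_nonneg_right hω1 (norm_nonneg _)) ?_
                (norm_nonneg _) (by positivity)
              exact (pow_sub_ConeN n hwn).trans (mul_le_mul_of_nonneg_left h1 (by positivity))
          _ = η * (1 + L) * (n * 2 ^ n) * (‖u‖ * (‖u‖ ^ (n - 1) * ‖u‖)) := by ring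
          _ = η * (1 + L) * (n * 2 ^ n) * U := by
              rw [← pow_succ, hUn]
              congr 4
              omega
      have hnn : (2 : ℝ) ^ n ≤ 2 ^ k := pow_le_pow_right₀ (by norm_num) (by omega)
      have hnk : (n : ℝ) ≤ (k : ℝ) := by exact_mod_cast (by omega : n ≤ k)
      have h14 : (n : ℝ) * 2 ^ n ≤ (k : ℝ) * 2 ^ k :=
        mul_le_mul hnk hnn (by positivity) (by positivity)
      have hηL : 0 ≤ η * (1 + L) := by
        have : 0 < 1 + L := by linarith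
        positivity
      rw [e]
      refine (norm_add_le _ _).trans ?_
      calc _ ≤ η * (1 + L) * 2 ^ n * U + η * (1 + L) * (n * 2 ^ n) * U := add_le_add h12 h13
        _ = η * (1 + L) * (n * 2 ^ n + 2 ^ n) * U := by ring
        _ ≤ η * (1 + L) * ((k : ℝ) * 2 ^ k + 2 ^ k) * U :=
            mul_le_mul_of_nonneg_right (mul_le_mul_of_nonneg_left (add_le_add h14 hnn) hηL) hU0.le
        _ = η * ((1 + L) * ((k : ℝ) * 2 ^ k + 2 ^ k)) * U := by ring
    have h15 := hδ ω u a hω h ha0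
    have h16 : (ω - 1) * u ^ k + a = -(a₀ * x * w ^ n - (ω - 1) * u ^ k) := by
      have h17 : (a : ℂ) = -(a₀ * x * w ^ n) := by
        rw [eq_neg_iff_add_eq_zero, add_comm]
        exact h7
      rw [h17]
      ring
    rw [h16, norm_neg, ← hU] at h15
    have h17 : η * ((1 + L) * ((k : ℝ) * 2 ^ k + 2 ^ k)) * U < δ * U :=
      mul_lt_mul_of_pos_right hη hU0
    have h18 : δ * U ≤ δ * (U + a) := mul_le_mul_of_nonneg_left (by linarith) hδ0.le
    linarith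

theorem cone_ineq {s : ℍ} {n : ℕ} (hn : 2 ≤ n) {H : ℍ → ℍ} (h : ConeFixed s n H) :
    ∃ c : ℂ, c ≠ 0 ∧ ∀ᶠ z in 𝓝[≠] (s : ℂ), ∀ t ∈ Icc (0 : ℝ) 1,
      (z - (H (UpperHalfPlane.ofComplex z) : ℂ)) + t •
        (-(c * conj (z - s) ^ (n - 1)) - (z - (H (UpperHalfPlane.ofComplex z) : ℂ))) ≠ 0 := by
  obtain ⟨hHs, hHc, ψ, L, hL, hψ, hψs, ha₀, hev⟩ := h
  obtain ⟨a₀, ha₀'⟩ : ∃ a₀, a₀ = deriv ψ (s : ℂ) := ⟨_, rfl⟩
  rw [← ha₀'] at ha₀
  obtain ⟨δ, hδ0, hδ⟩ := cone_angle hn hL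
  have hL0 : 0 < 1 + L := by linarith
  obtain ⟨K, hK⟩ : ∃ K : ℝ, K = (1 + L) * ((n : ℝ) * 2 ^ n + 2 ^ n) := ⟨_, rfl⟩
  have hK0 : 0 < K := by
    rw [hK]
    positivity
  obtain ⟨η, hη0, hη1, hηK⟩ : ∃ η : ℝ, 0 < η ∧ η ≤ 1 ∧ η * K < δ := by
    refine ⟨min 1 (δ / (2 * K)), lt_min one_pos (by positivity), min_le_left _ _, ?_⟩
    calc min 1 (δ / (2 * K)) * K ≤ δ / (2 * K) * K :=
          mul_le_mul_of_nonneg_right (min_le_right _ _) hK0.le
      _ = δ / 2 := by field_simp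
      _ < δ := by linarith
  have hna : 0 < ‖a₀‖ := norm_pos_iff.2 ha₀
  obtain ⟨ε, hε⟩ : ∃ ε : ℝ, ε = η * ‖a₀‖ / 2 := ⟨_, rfl⟩
  have hε0 : 0 < ε := by
    rw [hε]
    positivity
  -- strict differentiability
  have hstr : HasStrictDerivAt ψ a₀ (s : ℂ) := by
    rw [ha₀']
    exact hψ.hasStrictDerivAt
  have hlit : ∀ᶠ p : ℂ × ℂ in 𝓝 ((s : ℂ), (s : ℂ)),
      ‖ψ p.1 - ψ p.2 - a₀ * (p.1 - p.2)‖ ≤ ε * ‖p.1 - p.2‖ := by
    have h1 := hstr.hasStrictFDerivAt.isLittleO.def hε0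
    filter_upwards [h1] with p hp
    have e : (ContinuousLinearMap.toSpanSingleton ℂ a₀) (p.1 - p.2) = a₀ * (p.1 - p.2) := by
      simp [mul_comm]
    rw [← e]
    exact hp
  have hof : Tendsto UpperHalfPlane.ofComplex (𝓝 (s : ℂ)) (𝓝 s) := by
    have h1 := (UpperHalfPlane.contMDiffAt_ofComplex (n := 0) (z := (s : ℂ)) s.2).continuousAt
    have h2 := h1.tendsto
    rwa [UpperHalfPlane.ofComplex_apply] at h2
  have hHof : Tendsto (fun z : ℂ => (H (UpperHalfPlane.ofComplex z) : ℂ)) (𝓝 (s : ℂ))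
      (𝓝 (s : ℂ)) := by
    have h1 : Tendsto (fun z : ℍ => (H z : ℂ)) (𝓝 s) (𝓝 (H s : ℂ)) :=
      (UpperHalfPlane.continuous_coe.comp hHc).tendsto s
    rw [hHs] at h1
    exact h1.comp hof
  have him : ∀ᶠ z in 𝓝 (s : ℂ), ((UpperHalfPlane.ofComplex z : ℍ) : ℂ) = z :=
    UpperHalfPlane.eventuallyEq_coe_comp_ofComplex s.2
  have hid : Tendsto (fun z : ℂ => z) (𝓝 (s : ℂ)) (𝓝 (s : ℂ)) := tendsto_id
  have hcs : Tendsto (fun _ : ℂ => (s : ℂ)) (𝓝 (s : ℂ)) (𝓝 (s : ℂ)) := tendsto_const_nhds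
  have e1 := (hHof.prodMk_nhds hid).eventually hlit
  have e2 := (hid.prodMk_nhds hcs).eventually hlit
  have e3 := (hHof.prodMk_nhds hcs).eventually hlit
  have e4 := hof.eventually hev
  refine ⟨conj a₀ ^ (n - 1) / a₀, div_ne_zero (pow_ne_zero _ ?_) ha₀, ?_⟩
  · rwa [Ne, map_eq_zero]
  rw [eventually_nhdsWithin_iff]
  filter_upwards [e1, e2, e3, e4, him] with z h1 h2 h3 h4 h5 hz t ht h0
  obtain ⟨ω, hω, h6, h7⟩ := h4
  rw [h5] at h6 h7
  rw [hψs, sub_zero] at h2 h3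
  obtain ⟨y, hy⟩ : ∃ y : ℂ, y = (H (UpperHalfPlane.ofComplex z) : ℂ) := ⟨_, rfl⟩
  rw [← hy] at h0 h1 h3 h6
  obtain ⟨u, hu⟩ : ∃ u, u = ψ z := ⟨_, rfl⟩
  rw [← hu] at h1 h2 h6 h7
  have hzs : z - (s : ℂ) ≠ 0 := sub_ne_zero.2 hz
  have hd1 : ‖z - s‖ * ‖a₀‖ ≤ 2 * ‖u‖ := by
    have h8 : ‖a₀ * (z - s)‖ ≤ ‖u‖ + ε * ‖z - s‖ := by
      have h9 : a₀ * (z - s) = u - (u - a₀ * (z - s)) := by ring
      calc ‖a₀ * (z - s)‖ = ‖u - (u - a₀ * (z - s))‖ := by rw [← h9]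
        _ ≤ ‖u‖ + ‖u - a₀ * (z - s)‖ := norm_sub_le _ _
        _ ≤ ‖u‖ + ε * ‖z - s‖ := by linarith
    rw [norm_mul] at h8
    have h10 : ε * ‖z - s‖ ≤ ‖a₀‖ / 2 * ‖z - s‖ := by
      refine mul_le_mul_of_nonneg_right ?_ (norm_nonneg _)
      rw [hε]
      nlinarith
    linarith
  have hu0 : u ≠ 0 := by
    rintro rfl
    rw [norm_zero, mul_zero] at hd1
    have : 0 < ‖z - s‖ * ‖a₀‖ := mul_pos (norm_pos_iff.2 hzs) hna
    linarith
  have hωL : ‖ω‖ ≤ L := by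
    exact norm_le hn hL hu0 h7
  have hd2 : ‖y - s‖ * ‖a₀‖ ≤ 2 * (L * ‖u‖) := by
    have h8 : ‖a₀ * (y - s)‖ ≤ L * ‖u‖ + ε * ‖y - s‖ := by
      have h9 : a₀ * (y - s) = ψ y - (ψ y - a₀ * (y - s)) := by ring
      calc ‖a₀ * (y - s)‖ = ‖ψ y - (ψ y - a₀ * (y - s))‖ := by rw [← h9]
        _ ≤ ‖ψ y‖ + ‖ψ y - a₀ * (y - s)‖ := norm_sub_le _ _
        _ ≤ L * ‖u‖ + ε * ‖y - s‖ := by
            refine add_le_add ?_ h3
            rw [h6, norm_mul]
            exact mul_le_mul_of_nonneg_right hωL (norm_nonneg _)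
    rw [norm_mul] at h8
    have h10 : ε * ‖y - s‖ ≤ ‖a₀‖ / 2 * ‖y - s‖ := by
      refine mul_le_mul_of_nonneg_right ?_ (norm_nonneg _)
      rw [hε]
      nlinarith
    linarith
  have g1 : ‖a₀ * (z - s) - u‖ ≤ η * ‖u‖ := by
    rw [norm_sub_rev]
    refine h2.trans ?_
    rw [hε]
    have : η / 2 * (‖z - s‖ * ‖a₀‖) ≤ η / 2 * (2 * ‖u‖) :=
      mul_le_mul_of_nonneg_left hd1 (by positivity)
    linarith
  have g2 : ‖a₀ * (y - z) - (ω - 1) * u‖ ≤ η * (1 + L) * ‖u‖ := by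
    have h8 : a₀ * (y - z) - (ω - 1) * u = -(ψ y - u - a₀ * (y - z)) := by
      rw [h6]
      ring
    rw [h8, norm_neg]
    refine h1.trans ?_
    have h9 : ‖y - z‖ ≤ ‖y - s‖ + ‖z - s‖ := by
      have h10 : y - z = (y - s) - (z - s) := by ring
      rw [h10]
      exact norm_sub_le _ _
    have h11 : ε * ‖y - z‖ ≤ ε * (‖y - s‖ + ‖z - s‖) := mul_le_mul_of_nonneg_left h9 hε0.le
    have h12 : η / 2 * (‖y - s‖ * ‖a₀‖ + ‖z - s‖ * ‖a₀‖) ≤ η / 2 * (2 * (L * ‖u‖) + 2 * ‖u‖) :=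
      mul_le_mul_of_nonneg_left (add_le_add hd2 hd1) (by positivity)
    rw [hε] at h11 ⊢
    linarith
  refine alg_ConeN hn hL hδ0 hδ hη0.le hη1 (by rw [← hK]; exact hηK) ha₀ hzs hω h7 g1 g2 ht ?_
  rw [Complex.real_smul] at h0
  rw [map_sub] at h0 ⊢
  push_cast at h0 ⊢
  linear_combination (-1 : ℂ) * h0

end Pool.Agent.ANO2.Idx2
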